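import Mathlib
import Pool.Agent.L7h12.SV.Stm

/-!
# Project SV (helper12), parts MON and END
-/

set_option autoImplicit false

namespace Pool.Agent.L7h79.SV

open Polynomial Set Pool.Agent.L7h12.SV

/-- The derivative has a constant sign on an interval without critical point. -/
theorem sign_const (p : ℝ[X]) (x1 x2 : ℝ) (h : ∀ x, x1 < x → x < x2 → Rg p x) :
    (∀ x, x1 < x → x < x2 → 0 < p.derivative.eval x) ∨
      (∀ x, x1 < x → x < x2 → p.derivative.eval x < 0) := by
  by_contra hcon
  push Not at hcon
  obtain ⟨⟨a, ha1, ha2, ha3⟩, ⟨b, hb1, hb2, hb3⟩⟩ := hcon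
  have ha3' : p.derivative.eval a < 0 := lt_of_le_of_ne ha3 (h a ha1 ha2)
  have hb3' : 0 < p.derivative.eval b := lt_of_le_of_ne hb3 (h b hb1 hb2).symm
  have hc : ContinuousOn (fun x => p.derivative.eval x) (uIcc a b) :=
    p.derivative.continuous.continuousOn
  have h0 : (0 : ℝ) ∈ uIcc (p.derivative.eval a) (p.derivative.eval b) := by
    rw [uIcc_of_le (ha3'.le.trans hb3'.le)]
    exact ⟨ha3'.le, hb3'.le⟩
  obtain ⟨c, hc1, hc2⟩ := intermediate_value_uIcc hc h0
  have hc3 : x1 < c ∧ c < x2 := by
    rw [mem_uIcc] at hc1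
    rcases hc1 with h' | h'
    · exact ⟨ha1.trans_le h'.1, h'.2.trans_lt hb2⟩
    · exact ⟨hb1.trans_le h'.1, h'.2.trans_lt ha2⟩
  exact h c hc3.1 hc3.2 hc2

theorem s_MON : S_MON := by
  intro p x1 x2 h12 h
  have hd : ∀ x, deriv (fun x => p.eval x) x = p.derivative.eval x := fun x => p.deriv
  rcases sign_const p x1 x2 h with h' | h'
  · left
    refine ⟨?_, h'⟩
    apply strictMonoOn_of_deriv_pos (convex_Icc x1 x2) p.continuous.continuousOn
    intro x hx
    rw [interior_Icc] at hx
    rw [hd]
    exact h' x hx.1 hx.2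
  · right
    refine ⟨?_, h'⟩
    apply strictAntiOn_of_deriv_neg (convex_Icc x1 x2) p.continuous.continuousOn
    intro x hx
    rw [interior_Icc] at hx
    rw [hd]
    exact h' x hx.1 hx.2

/-- a nonconstant polynomial is unbounded in absolute value to the right -/
theorem unbdd_right (p : ℝ[X]) (hp : 0 < p.natDegree) (x0 M : ℝ) :
    ∃ x, x0 < x ∧ M < |p.eval x| := by
  have h := Polynomial.abs_tendsto_atTop p (natDegree_pos_iff_degree_pos.1 hp)
  have h1 := (h.eventually_gt_atTop M).and (Filter.eventually_gt_atTop x0)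
  obtain ⟨x, hx⟩ := h1.exists
  exact ⟨x, hx.2, hx.1⟩

theorem unbdd_left (p : ℝ[X]) (hp : 0 < p.natDegree) (x0 M : ℝ) :
    ∃ x, x < x0 ∧ M < |p.eval x| := by
  have h1 : 0 < (p.comp (-X)).natDegree := by
    rw [natDegree_comp]
    simpa using hp
  obtain ⟨x, hx1, hx2⟩ := unbdd_right (p.comp (-X)) h1 (-x0) M
  refine ⟨-x, by linarith, ?_⟩
  rw [eval_comp, eval_neg, eval_X] at hx2
  exact hx2

theorem natDegree_pos_of_deriv {p : ℝ[X]} (hp : 0 < p.derivative.natDegree) : 0 < p.natDegree := by
  have := natDegree_derivative_le p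
  omega

/-- the case of the direction to the right -/
theorem end_right (hM : S_MON) (p : ℝ[X]) (x0 : ℝ) (hp : 0 < p.derivative.natDegree)
    (hx : 0 < p.derivative.eval x0) : (∃ r, UpFin p x0 ((1 : ℤ) : ℝ) r) ∨ UpInf p x0 ((1 : ℤ) : ℝ) := by
  have hd0 : p.derivative ≠ 0 := by
    intro h; rw [h] at hp; simp at hp
  by_cases hex : ∃ r, x0 < r ∧ ¬ Rg p r
  · left
    set S := p.derivative.roots.toFinset.filter (fun r => x0 < r) with hS
    have hmem : ∀ r, r ∈ S ↔ x0 < r ∧ ¬ Rg p r := by
      intro r
      rw [hS, Finset.mem_filter, Multiset.mem_toFinset, mem_roots hd0]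
      unfold Rg
      rw [not_not]
      exact and_comm
    have hne : S.Nonempty := by
      obtain ⟨r, hr⟩ := hex
      exact ⟨r, (hmem r).2 hr⟩
    have hmin := S.min'_mem hne
    obtain ⟨h1, h2⟩ := (hmem _).1 hmin
    refine ⟨S.min' hne, ?_, ?_, h2, ?_⟩
    · push_cast; linarith
    · push_cast; linarith
    · intro s hs1 hs2
      push_cast at hs1 hs2
      by_contra hcon
      rcases eq_or_lt_of_le (show x0 ≤ s by linarith) with h | h
      · subst h
        exact hcon hx.ne'
      · have := S.min'_le s ((hmem s).2 ⟨h, hcon⟩)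
        linarith
  · right
    push Not at hex
    have hreg : ∀ s, x0 ≤ s → Rg p s := by
      intro s hs
      rcases eq_or_lt_of_le hs with h | h
      · rw [← h]; exact hx.ne'
      · exact hex s h
    refine ⟨by push_cast; linarith, fun s hs => hreg s (by push_cast at hs; linarith), ?_⟩
    intro M
    obtain ⟨x, hx1, hx2⟩ := unbdd_right p (natDegree_pos_of_deriv hp) x0 (max M (-p.eval x0))
    refine ⟨x, by push_cast; linarith, ?_⟩
    -- `p` is strictly increasing on `[x0, x]`
    have hmono : p.eval x0 < p.eval x := by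
      rcases hM p x0 x hx1 (fun s h1 _ => hreg s h1.le) with ⟨h, _⟩ | ⟨_, h⟩
      · exact h ⟨le_rfl, hx1.le⟩ ⟨hx1.le, le_rfl⟩ hx1
      · exfalso
        -- the derivative is negative to the right of `x0`, contradiction with continuity
        have hc : ∀ᶠ s in nhds x0, 0 < p.derivative.eval s :=
          p.derivative.continuous.continuousAt.eventually (lt_mem_nhds hx)
        obtain ⟨e, he, hball⟩ := Metric.eventually_nhds_iff.1 hc
        have h3 := h (x0 + min (e / 2) ((x - x0) / 2))
          (by have : 0 < min (e / 2) ((x - x0) / 2) := lt_min (by linarith) (by linarith)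
              linarith)
          (by have : min (e / 2) ((x - x0) / 2) ≤ (x - x0) / 2 := min_le_right _ _
              linarith)
        have h4 := hball (y := x0 + min (e / 2) ((x - x0) / 2)) (by
          rw [Real.dist_eq, add_sub_cancel_left, abs_of_pos (lt_min (by linarith) (by linarith))]
          have : min (e / 2) ((x - x0) / 2) ≤ e / 2 := min_le_left _ _
          linarith)
        linarith
    rcases abs_cases (p.eval x) with ⟨h1, _⟩ | ⟨h1, h2⟩
    · rw [h1] at hx2
      exact (le_max_left _ _).trans_lt hx2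
    · rw [h1] at hx2
      have := (le_max_right M (-p.eval x0)).trans_lt hx2
      linarith

theorem rg_comp (p : ℝ[X]) (x : ℝ) : (p.comp (-X)).derivative.eval x = -p.derivative.eval (-x) := by
  rw [derivative_comp]
  simp

theorem s_END (hM : S_MON) : S_END := by
  intro p x0 hp hx
  rcases lt_or_gt_of_ne hx with h | h
  · refine ⟨-1, Or.inr rfl, ?_⟩
    have hp' : 0 < (p.comp (-X)).derivative.natDegree := by
      have e : (p.comp (-X)).derivative = -(p.derivative.comp (-X)) := by
        rw [derivative_comp]
        simp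
      rw [e, natDegree_neg, natDegree_comp]
      simpa using hp
    have h' : 0 < (p.comp (-X)).derivative.eval (-x0) := by
      rw [rg_comp, neg_neg]; linarith
    rcases end_right hM (p.comp (-X)) (-x0) hp' h' with ⟨r, h1, h2, h3, h4⟩ | ⟨h1, h2, h3⟩
    · left
      refine ⟨-r, by push_cast; linarith, ?_, ?_, ?_⟩
      · push_cast at h2 ⊢; linarith
      · unfold Rg at h3 ⊢
        rw [rg_comp, neg_ne_zero] at h3
        exact h3
      · intro s hs1 hs2
        push_cast at hs1 hs2
        have := h4 (-s) (by push_cast; linarith) (by push_cast; linarith)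
        unfold Rg at this ⊢
        rw [rg_comp, neg_neg, neg_ne_zero] at this
        exact this
    · right
      refine ⟨by push_cast; linarith, ?_, ?_⟩
      · intro s hs
        push_cast at hs
        have := h2 (-s) (by push_cast; linarith)
        unfold Rg at this ⊢
        rw [rg_comp, neg_neg, neg_ne_zero] at this
        exact this
      · intro M
        obtain ⟨x, hx1, hx2⟩ := h3 M
        push_cast at hx1
        refine ⟨-x, by push_cast; linarith, ?_⟩
        rw [eval_comp, eval_neg, eval_X] at hx2
        exact hx2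
  · exact ⟨1, Or.inl rfl, end_right hM p x0 hp h⟩

end Pool.Agent.L7h79.SV
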