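import Mathlib
import Pool.Agent.L7h12.SV.Stm

/-!
# Project SV (helper12), part UP: the upper end of an arc
-/

set_option autoImplicit false

namespace Pool.Agent.L7h79.SVU

open Polynomial Set Pool.Agent.L7h12.SV

theorem cell_swap {p f : ℝ[X]} {K : Set (ℝ × ℝ)} {a b : ℤ} (h : Cell f p (Prod.swap '' K) b a) :
    Cell p f K a b := by
  obtain ⟨w, ⟨v, hv, rfl⟩, h1, h2, h3, h4⟩ := h
  exact ⟨v, hv, h2, h1, h4, h3⟩

theorem step_swap (h1 : S_SYM) (h3 : S_STEP) {p f : ℝ[X]} {K : Set (ℝ × ℝ)}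
    (hp : p.derivative ≠ 0) (hf : f.derivative ≠ 0) (hK : Piece p f K) {x0 y0 s x1 : ℝ} {σ τ : ℤ}
    (hσ : σ = 1 ∨ σ = -1) (hτ : τ = 1 ∨ τ = -1) (hw : (x0, y0) ∈ K) (hx : Rg p x0) (hy : Rg f y0)
    (hup : UpFin f y0 τ s) (hd : 0 < (σ : ℝ) * p.derivative.eval x0) (hx1 : 0 < (σ : ℝ) * (x1 - x0))
    (hr : ∀ t, 0 ≤ (σ : ℝ) * (t - x0) → 0 < (σ : ℝ) * (x1 - t) → Rg p t)
    (hlt : f.eval s < p.eval x1) : Cell p f K (col p x0) (col f y0 + τ) := by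
  apply cell_swap
  exact h3 f p (Prod.swap '' K) hf hp (h1 p f K hK).1 y0 x0 s x1 τ σ hτ hσ ⟨(x0, y0), hw, rfl⟩ hy hx
    hup hd hx1 hr hlt

theorem s_UP (h1 : S_SYM) (h2 : S_END) (h3 : S_STEP) : S_UP := by
  intro p f K hp hf hNS hK w hw hwp hwf
  obtain ⟨x0, y0⟩ := w
  have hp0 : p.derivative ≠ 0 := by
    intro h; rw [h] at hp; simp at hp
  have hf0 : f.derivative ≠ 0 := by
    intro h; rw [h] at hf; simp at hf
  obtain ⟨σ, hσ, hpe⟩ := h2 p x0 hp hwp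
  obtain ⟨τ, hτ, hfe⟩ := h2 f y0 hf hwf
  have hσd : 0 < (σ : ℝ) * p.derivative.eval x0 := by
    rcases hpe with ⟨r, hr⟩ | hr
    · exact hr.1
    · exact hr.1
  have hτd : 0 < (τ : ℝ) * f.derivative.eval y0 := by
    rcases hfe with ⟨r, hr⟩ | hr
    · exact hr.1
    · exact hr.1
  refine ⟨σ, τ, hσ, hτ, hσd, hτd, ?_⟩
  rcases hpe with ⟨r, hr⟩ | hr
  · rcases hfe with ⟨s, hs⟩ | hs
    · have hne : p.eval r ≠ f.eval s := by
        intro h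
        rcases hNS r s h with h' | h'
        · exact hr.2.2.1 h'
        · exact hs.2.2.1 h'
      rcases lt_or_gt_of_ne hne with h | h
      · left
        exact h3 p f K hp0 hf0 hK x0 y0 r s σ τ hσ hτ hw hwp hwf hr hτd hs.2.1 hs.2.2.2 h
      · right; left
        exact step_swap h1 h3 hp0 hf0 hK hσ hτ hw hwp hwf hs hσd hr.2.1 hr.2.2.2 h
    · left
      obtain ⟨y1, hy1, hy2⟩ := hs.2.2 (p.eval r)
      exact h3 p f K hp0 hf0 hK x0 y0 r y1 σ τ hσ hτ hw hwp hwf hr hτd hy1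
        (fun t ht _ => hs.2.1 t ht) hy2
  · rcases hfe with ⟨s, hs⟩ | hs
    · right; left
      obtain ⟨x1, hx1, hx2⟩ := hr.2.2 (f.eval s)
      exact step_swap h1 h3 hp0 hf0 hK hσ hτ hw hwp hwf hs hσd hx1 (fun t ht _ => hr.2.1 t ht) hx2
    · right; right
      exact ⟨hr, hs⟩

end Pool.Agent.L7h79.SVU

namespace Pool.Agent.L7h79.SV

open Pool.Agent.L7h12.SV

theorem s_UP (h1 : S_SYM) (h2 : S_END) (h3 : S_STEP) : S_UP := Pool.Agent.L7h79.SVU.s_UP h1 h2 h3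

end Pool.Agent.L7h79.SV
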