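import Pool.Agent.L7h17.OC.Defs

/-!
# Project SV (MP_b7f146_ag): real plane octics with separated variables

THEOREM. Let `F` be a nonsingular real plane octic which in some real projective coordinates has the
affine equation `p(x) + q(y) = 0` with polynomials `p`, `q` of degree 8. It has at most 17 ovals, and at
most 16 if the leading coefficients of `p` and `q` have the same sign. (Harnack's bound is 22.)

PROOF. Let the leading coefficient of `p` be positive. Call a COMPONENT a nonempty compact subset `Z` of
the curve whose complement in the curve is closed. Take a point `(x1, y1)` of `Z` with the largest `x1`. By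
[TAN] either (A) `p' (x1) > 0` and `y1` is a local minimum of `q`, or `p' (x1) < 0` and `y1` is a local
maximum of `q`. In the second case follow the curve downwards, [FOL], until it meets the line `x = M`, `M`
the last local maximum of `p` before `x1`: (B) there is a point `(M, y0)` of `Z`, `M` a local maximum of `p`,
`q' (y0) > 0`. SLOTS: pairs `(m, n)` of a local minimum of `p` and one of `q`. In the case (A) the slot is
`(m, y1)`, `m` the last local minimum of `p` before `x1`; in the case (B) it is `(m, n)`, `m` the last local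
minimum of `p` before `M`, `n` the last local minimum of `q` before `y0` (if there is none, `q` tends to
`-∞` at `-∞` and the slot is `M`). Different components have different slots: at most `4 * 4` or
`4 * 3 + 3`. Sets which are not compact in the affine plane contain one of the two points at infinity.
-/

set_option autoImplicit false

namespace Pool.Agent.L7h79.SV

open Polynomial Pool.Agent.L7h17.OC

/-- The affine curve `p(x) + q(y) = 0`. -/
def Zr (p q : ℝ[X]) : Set (ℝ × ℝ) := {v | p.eval v.1 + q.eval v.2 = 0}

/-- A compact component: a nonempty compact subset of the curve whose complement in the curve is closed. -/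
structure Comp (p q : ℝ[X]) (Z : Set (ℝ × ℝ)) : Prop where
  compact : IsCompact Z
  nonempty : Z.Nonempty
  sub : Z ⊆ Zr p q
  clop : IsClosed (Zr p q \ Z)

/-- No singular point in the real affine plane. -/
def Reg (p q : ℝ[X]) : Prop :=
  ∀ x y : ℝ, p.eval x + q.eval y = 0 → ¬ (p.derivative.eval x = 0 ∧ q.derivative.eval y = 0)

/-- [TAN] 100 lines. Proof: `q' (y1) = 0`: otherwise, by the intermediate value theorem, for all `x > x1`
close to `x1` there is `y` close to `y1` with `q y = - p x`; the point is close to `(x1, y1)` and on the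
curve, so not in the closed set `Zr \ Z`, so in `Z`: contradiction to the choice of `x1`. So
`p' (x1) ≠ 0` by `Reg`. Let `p' (x1) > 0`. If `q y < q y1` for some `y` arbitrarily close to `y1`, then
`- q y > p x1` is a value `p x` for some `x > x1` close to `x1`: the same contradiction. The case
`p' (x1) < 0` is similar (or apply the first case to... the sign of `q` reversed). -/
def S_TAN : Prop := ∀ (p q : ℝ[X]) (Z : Set (ℝ × ℝ)) (x1 y1 : ℝ), Reg p q → Comp p q Z →
  (x1, y1) ∈ Z → (∀ v ∈ Z, v.1 ≤ x1) →
  (0 < p.derivative.eval x1 ∧ IsLocalMin (fun y => q.eval y) y1) ∨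
    (p.derivative.eval x1 < 0 ∧ IsLocalMax (fun y => q.eval y) y1)

/-- [CUR] 80 lines. Following the curve. Proof: for every `t ∈ [y0, y1]` there is exactly one
`x ∈ [M, x1]` with `p x = - q t` (intermediate value theorem, injectivity). Let `A` be the set of the `t`
with `(x, t) ∈ Z` for this `x`, `B` the set of those with `(x, t) ∈ Zr \ Z`. `A` and `B` are the projections
of the compact sets `Z ∩ ([M,x1] × [y0,y1])` and `(Zr \ Z) ∩ ([M,x1] × [y0,y1])`, so they are closed, they
cover `[y0, y1]` and are disjoint; `y1 ∈ A`; `[y0, y1]` is preconnected, so `B` is empty. -/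
def S_CUR : Prop := ∀ (p q : ℝ[X]) (Z : Set (ℝ × ℝ)) (M x1 y0 y1 : ℝ), Comp p q Z → M ≤ x1 →
  y0 ≤ y1 → StrictAntiOn (fun x => p.eval x) (Set.Icc M x1) →
  (∀ t ∈ Set.Icc y0 y1, p.eval x1 ≤ - q.eval t ∧ - q.eval t ≤ p.eval M) → (x1, y1) ∈ Z →
  ∀ t ∈ Set.Icc y0 y1, ∃ x ∈ Set.Icc M x1, (x, t) ∈ Z

/-- [FOL] 100 lines, may assume `S_TAN`, `S_CUR`. Proof: `p' (x1) ≤ 0`, so by [TAN] `p' (x1) < 0` and
`y1` is a local maximum of `q`. `T = {y ≤ y1 : p x1 ≤ - q t ≤ p M for all t ∈ [y, y1]}` contains `y1`, and it
is bounded below since by [CUR] `(x, y) ∈ Z` for some `x` if `y ∈ T`, and `Z` is bounded. Let `y0 = inf T`;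
`y0 ∈ T` by continuity. If `- q y0 < p M` then `T` contains points smaller than `y0`: this is clear if
`- q y0 > p x1`; if `- q y0 = p x1` then the point of [CUR] over `y0` is `(x1, y0)` (injectivity), `y0` is a
local maximum of `q` by [TAN], so `- q t ≥ p x1` near `y0`. So `- q y0 = p M`, the point of [CUR] is
`(M, y0)`, `y0 ≠ y1` since `p M > p x1`. -/
def S_FOL : Prop := ∀ (p q : ℝ[X]) (Z : Set (ℝ × ℝ)) (M x1 y1 : ℝ), Reg p q → Comp p q Z →
  (x1, y1) ∈ Z → (∀ v ∈ Z, v.1 ≤ x1) → M < x1 →
  StrictAntiOn (fun x => p.eval x) (Set.Icc M x1) →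
  ∃ y0 : ℝ, y0 < y1 ∧ (M, y0) ∈ Z ∧ ∀ t ∈ Set.Icc y0 y1, q.eval y0 ≤ q.eval t

/-- [BAS] 80 lines. The last local minimum before `x`. Proof: the set of the local minima smaller than
`x` is finite (roots of `p'`, `p` is not constant). If it is empty let `m = -∞`, otherwise let `m` be the
greatest element. If `m ≤ s < t ≤ x` and `p t ≤ p s`, then the minimum of `p` on `[s, x]` is attained at
some `u` with `s < u < x` (not only at `s` since `p t ≤ p s`; not only at `x` by hypothesis: if the
minimum is attained at `s` then also at `t`, and `t ≠ x`, for there are smaller values near `x`): a local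
minimum greater than `m`, a contradiction. -/
def S_BAS : Prop := ∀ (p : ℝ[X]) (x : ℝ), 0 < p.natDegree →
  (∀ e : ℝ, 0 < e → ∃ x', x - e < x' ∧ x' < x ∧ p.eval x' < p.eval x) →
  (∃ m < x, IsLocalMin (fun t => p.eval t) m ∧ StrictMonoOn (fun t => p.eval t) (Set.Icc m x)) ∨
    StrictMonoOn (fun t => p.eval t) (Set.Iic x)

/-- [AB] 80 lines, may assume `S_TAN`, `S_FOL`, `S_BAS`. Proof: `(x1, y1) ∈ Z` with the largest `x1`
(compactness). (A) or `p' (x1) < 0` by [TAN]. In the second case apply [BAS] to `-p` at `x1`: either there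
is a local maximum `M < x1` of `p`, `p` strictly decreasing on `[M, x1]`; [FOL] gives `y0`; `p' M = 0`, so
`q' (y0) ≠ 0` by `Reg`, and `q' (y0) ≥ 0` since `q y0 ≤ q t` for `t ∈ [y0, y1]`. Or `p` is strictly
decreasing on `(-∞, x1]`: take `M` smaller than all the `x` on `Z`; [FOL] gives `(M, y0) ∈ Z`, false. -/
def S_AB : Prop := ∀ (p q : ℝ[X]) (Z : Set (ℝ × ℝ)), 0 < p.natDegree → Reg p q → Comp p q Z →
  (∃ x n : ℝ, (x, n) ∈ Z ∧ 0 < p.derivative.eval x ∧ IsLocalMin (fun y => q.eval y) n) ∨
    ∃ M y : ℝ, (M, y) ∈ Z ∧ IsLocalMax (fun x => p.eval x) M ∧ 0 < q.derivative.eval y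

/-- [MINS] 80 lines. Degree 8, positive leading coefficient: at most four local minima and at most three
local maxima. Proof: all are roots of `p'` (at most 7). Between two neighbouring local minima there is a
local maximum (maximum on the interval), which is not a local minimum (`p` is not locally constant):
`Finset.card_le_diff_of_interleaved` gives `r ≤ (7 - r) + 1`. Local maxima `s` of them: between two
neighbouring ones there is a local minimum, and there is one smaller than all and one greater than all of
them (`p → ∞`): insert them, `s + 1 ≤` number of the local minima `≤ 4`. -/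
def S_MINS : Prop := ∀ p : ℝ[X], p.natDegree = 8 → 0 < p.leadingCoeff →
  {x | IsLocalMin (fun t => p.eval t) x}.Finite ∧ {x | IsLocalMin (fun t => p.eval t) x}.ncard ≤ 4 ∧
  {x | IsLocalMax (fun t => p.eval t) x}.Finite ∧ {x | IsLocalMax (fun t => p.eval t) x}.ncard ≤ 3

/-- [SLOT] 150 lines, may assume `S_AB`, `S_BAS`, `S_MINS`. Proof: for every `i` choose (A) or (B) by [AB].
`p` is not strictly increasing on `(-∞, x]` (`p → ∞` at `-∞`). (A): [BAS] at `x` (`p' x > 0`) gives `m`; slot
`(m, n)`. (B): [BAS] for `p` at `M` (a local maximum of a polynomial which is not constant is strict) gives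
`m`, [BAS] for `q` at `y` gives `n`: slot `(m, n)`; or `q` is strictly increasing on `(-∞, y]`, this only if
the leading coefficient of `q` is negative: slot `M`. Injective: (A), (A'): `p x = - q n = p x'`, `p` is
strictly increasing on `[m, x]` and `[m, x']`, so `x = x'`, the same point. (B), (B'): if `M < M'` then
`p` is strictly increasing on `[m, M']`, which contains `M` in its interior: false; so `M = M'`,
`q y = q y'`, `y = y'`. (A), (B): `q n < q y = - p M`, so `p x = - q n > p M`, so `x > M` and `M` is in the
interior of `[m, x]`, false. Third kind of slots: `M = M'`, `q y = q y'`, so `y = y'`.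
Number of slots: `4 * 4` if the leading coefficient of `q` is positive, `4 * 3 + 3` if it is
negative (local minima of `q` are local maxima of `-q`). -/
def S_SLOT : Prop := ∀ (p q : ℝ[X]) (k : ℕ) (Z : Fin k → Set (ℝ × ℝ)), p.natDegree = 8 →
  q.natDegree = 8 → 0 < p.leadingCoeff → Reg p q → (∀ i, Comp p q (Z i)) →
  (∀ i j, i ≠ j → Disjoint (Z i) (Z j)) →
  (0 < q.leadingCoeff → k ≤ 16) ∧ (q.leadingCoeff < 0 → k ≤ 15)

/-- `F` has the affine equation `p(x) + q(y) = 0`. -/
def Sep (F : MvPolynomial (Fin 3) ℝ) (p q : ℝ[X]) : Prop :=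
  F.IsHomogeneous 8 ∧ p.natDegree = 8 ∧ q.natDegree = 8 ∧
    ∀ x y : ℝ, MvPolynomial.eval ![x, y, 1] F = p.eval x + q.eval y

/-- [INFT] 50 lines. Points at infinity. Proof: for `z ≠ 0`, `F (x, y, z) = z ^ 8 (p (x/z) + q (y/z))`
(homogeneous); both sides of the claim are the limits of this for `z → 0` (or compare coefficients). -/
def S_INFT : Prop := ∀ (F : MvPolynomial (Fin 3) ℝ) (p q : ℝ[X]), Sep F p q → ∀ x y : ℝ,
  MvPolynomial.eval ![x, y, 0] F = p.leadingCoeff * x ^ 8 + q.leadingCoeff * y ^ 8

/-- [REGF] 80 lines. Proof: let `(x, y)` be a real zero with `p' x = 0`, `q' y = 0`. The partial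
derivatives of `F` at `(x, y, 1)` in the first two directions are `p' x`, `q' y` (derivatives of
`s ↦ F (x + s, y, 1)`), and `x F_x + y F_y + F_z = 8 F = 0` (Euler), so `F_z = 0` too; this is a
real point, so `aeval` at the complex point is the image of `eval`. Contradiction to `Nonsing F`. -/
def S_REGF : Prop := ∀ (F : MvPolynomial (Fin 3) ℝ) (p q : ℝ[X]), Sep F p q → Nonsing F → Reg p q

/-- [AFF] 180 lines, may assume `S_INFT`. Proof: `Z i = {(x, y) | ![x, y, 1] ∈ C i}` for those `C i` which
contain no point with third coordinate zero (all `i` if the signs are equal; at most two `i` are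
excluded: the points at infinity are the multiples of `![1, c, 0]` and `![1, -c, 0]` by [INFT]).
Closed; bounded: if `![x_n, y_n, 1] ∈ C i` with norms tending to infinity, then the quotients by the norms
have a limit point on the unit sphere, with third coordinate `0`, in the closed set. Nonempty: `C i`
contains some `v` with `v 2 ≠ 0`, scale. `Zr \ Z i` is the union of the sets of the other `C j`, closed. -/
def S_AFF : Prop := ∀ (F : MvPolynomial (Fin 3) ℝ) (p q : ℝ[X]) (k : ℕ), Sep F p q →
  SplitsInto k F → ∃ (k' : ℕ) (Z : Fin k' → Set (ℝ × ℝ)), k ≤ k' + 2 ∧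
    (0 < p.leadingCoeff * q.leadingCoeff → k = k') ∧ (∀ i, Comp p q (Z i)) ∧
    ∀ i j, i ≠ j → Disjoint (Z i) (Z j)

/-- the final theorem in fixed coordinates -/
def S_FIN : Prop := ∀ (F : MvPolynomial (Fin 3) ℝ) (p q : ℝ[X]) (k : ℕ), Sep F p q → Nonsing F →
  SplitsInto k F → k ≤ 17 ∧ (0 < p.leadingCoeff * q.leadingCoeff → k ≤ 16)

end Pool.Agent.L7h79.SV
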