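import Mathlib
import Pool.Agent.L7h12.SV.Stm

/-!
# Project SV (helper12), parts SYM and UPDOWN
-/

set_option autoImplicit false

namespace Pool.Agent.L7h79.SV

open Polynomial Set Pool.Agent.L7h12.SV

theorem rg_neg (p : ℝ[X]) (x : ℝ) : Rg (-p) x ↔ Rg p x := by
  unfold Rg
  rw [derivative_neg, eval_neg, neg_ne_zero]

theorem col_neg (p : ℝ[X]) (x : ℝ) : col (-p) x = col p x := by
  unfold col
  rw [derivative_neg, roots_neg]

theorem z_neg (p f : ℝ[X]) : Z (-p) (-f) = Z p f := by
  ext w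
  simp only [Z, Set.mem_ofPred_eq, eval_neg, neg_inj]

theorem z_swap (p f : ℝ[X]) : Prod.swap '' Z p f = Z f p := by
  ext w
  constructor
  · rintro ⟨v, hv, rfl⟩
    exact (hv : p.eval v.1 = f.eval v.2).symm
  · intro h
    exact ⟨w.swap, (h : f.eval w.1 = p.eval w.2).symm, Prod.swap_swap w⟩

theorem closed_swap {K : Set (ℝ × ℝ)} (h : IsClosed K) : IsClosed (Prod.swap '' K) := by
  rw [image_swap_eq_preimage_swap]
  exact h.preimage continuous_swap

theorem s_SYM : S_SYM := by
  intro p f K hK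
  refine ⟨⟨?_, closed_swap hK.closed, ?_⟩, ⟨?_, hK.closed, ?_⟩, col_neg p, rg_neg p, ?_, ?_⟩
  · rw [← z_swap p f]
    exact image_mono hK.sub
  · rw [← z_swap p f, ← image_sdiff Prod.swap_injective]
    exact closed_swap hK.rest
  · rw [z_neg]; exact hK.sub
  · rw [z_neg]; exact hK.rest
  · intro h x y hxy
    rcases h y x hxy.symm with h' | h'
    · exact Or.inr h'
    · exact Or.inl h'
  · intro h x y hxy
    rw [eval_neg, eval_neg, neg_inj] at hxy
    rw [derivative_neg, derivative_neg, eval_neg, eval_neg, neg_ne_zero, neg_ne_zero]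
    exact h x y hxy

theorem s_UPDOWN (h1 : S_UP) (h2 : S_SYM) : S_UPDOWN := by
  intro p f K hp hf hNS hK w hw hwp hwf
  obtain ⟨σ, τ, hσ, hτ, hσd, hτd, hup⟩ := h1 p f K hp hf hNS hK w hw hwp hwf
  obtain ⟨_, hK', _, _, _, hNS'⟩ := h2 p f K hK
  obtain ⟨σ', τ', hσ', hτ', hσd', hτd', hdown⟩ := h1 (-p) (-f) K
    (by rw [derivative_neg, natDegree_neg]; exact hp)
    (by rw [derivative_neg, natDegree_neg]; exact hf) (hNS' hNS) hK' w hw
    ((rg_neg p _).2 hwp) ((rg_neg f _).2 hwf)
  rw [derivative_neg, eval_neg] at hσd' hτd'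
  have e1 : σ' = -σ := by
    rcases hσ with rfl | rfl <;> rcases hσ' with rfl | rfl
    · exfalso; push_cast at hσd hσd'; linarith
    · rfl
    · rfl
    · exfalso; push_cast at hσd hσd'; linarith
  have e2 : τ' = -τ := by
    rcases hτ with rfl | rfl <;> rcases hτ' with rfl | rfl
    · exfalso; push_cast at hτd hτd'; linarith
    · rfl
    · rfl
    · exfalso; push_cast at hτd hτd'; linarith
  subst e1
  subst e2
  refine ⟨σ, τ, hσ, hτ, hσd, hτd, hup, ?_⟩
  have hcell : ∀ a b : ℤ, Cell (-p) (-f) K a b → Cell p f K a b := by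
    rintro a b ⟨v, hv, h1, h2, h3, h4⟩
    exact ⟨v, hv, (rg_neg p _).1 h1, (rg_neg f _).1 h2, by rw [← col_neg]; exact h3,
      by rw [← col_neg]; exact h4⟩
  rw [col_neg, col_neg] at hdown
  rcases hdown with h | h | h
  · left
    rw [sub_eq_add_neg]
    exact hcell _ _ h
  · right; left
    rw [sub_eq_add_neg]
    exact hcell _ _ h
  · right; right
    push_cast at h
    exact h

end Pool.Agent.L7h79.SV
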